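import Pool.Agent.H802GB.Main

/-!
# The generalized Bloch conjecture for quotients of powers of curves (MP_13bc1c_ag)

The generalized Bloch conjecture for `c = 1`: if a smooth projective variety `Y` has no holomorphic
forms of positive degree then `A_0^hom(Y) = 0`, that is, all zero-cycles of degree zero on `Y` are
torsion.

We prove it for the varieties `Y`, of any dimension, which are dominated by quotients `X^n / Γ`
without holomorphic forms of positive degree, where `X` is a curve with an action of a group
`(ℤ/2)^r` and `Γ` is any subgroup of the wreath product `(ℤ/2)^r ≀ S_n`. Since all products
`C_1 × ⋯ × C_n` of hyperelliptic curves are dominated by powers `X^n` in this way (`X` is a component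
of the fibre product of the `C_i` over the projective line), the theorem contains all quotients of
products of hyperelliptic curves by groups generated by hyperelliptic involutions on factors and
permutations of equal factors, and further all varieties isogenous to a product of curves with group
`(ℤ/2)^r`. The curve `X` is arbitrary: nothing is assumed on its Hodge structure.

## Outline of the proof

Let `e` be an invariant class of degree one on `X`. A zero-cycle `z` on `X` is `deg(z) e` plus the
sum of its components `z_φ` in the parts `h^1(X)_φ` of the motive for the characters `φ` of
`(ℤ/2)^r`. By Kimura's theorem `Sym^(2 γ + 1) h^1(X)_φ = 0` for `γ = dim H^0(X, K_X)_φ`, and because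
the projector of `h^1(X)_φ` is symmetric, the sum over all perfect matchings of `2 γ + 2` points of
the products of its values is zero; multiplied with zero-cycles this gives (`relZ`): the
symmetrization of a product of zero-cycles of type `φ` on the factors of `X^n` over more than `γ`
positions is zero. So products of zero-cycles of a given type `c` behave, as a module over the
stabilizer of `c` in the symmetric group, like the products of forms in `H^0(X, K_X)` (this is where
invariant theory of the general linear group enters, theorem `alt_sum` of `Pool.Agent.R904.Voi`);
if the invariants of `Γ` in the forms are zero, the average over the stabilizer in `Γ` of the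
products of zero-cycles of type `c` is zero. On `Y` the products and their translates under `Γ` have
the same image. So only the multiples of the image of `e × ⋯ × e` are left.
-/

open CategoryTheory AlgebraicGeometry

universe u v

namespace Pool.Agent.H802GB.Old.PowersOfCurves

open Pool.Agent.H914 Pool.Agent.H914.VarClass Pool.Agent.H914.VarClass.Obj Pool.Agent.W492.BB
  Pool.Agent.TH133 Pool.Agent.R904.Voi Pool.Agent.H802GB

/-- Let `X` be a curve with an action of `(ℤ/2)^r`, where `γ φ` is the dimension of the space of
holomorphic differentials on `X` with character `φ`; let `P = X^n`, let `Γ` be a subgroup of the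
wreath product `(ℤ/2)^r ≀ S_n`, and let `Y` be a smooth projective variety dominated by `P / Γ`. If
there are no `Γ`-invariant holomorphic forms of positive degree on `P` then all zero-cycles of
degree zero on `Y` are zero in `CH_0(Y)_ℚ`. -/
theorem result {k : Type u} [Field k] {𝒱 : VarClass k} (C : TheoryData.{u, v, 0} 𝒱 ℚ)
    [IsChowProj C] {r n : ℕ} {X P Y : 𝒱.Obj} {a : Two r → (X ⟶ X)} {γ : Two r → ℕ}
    (hX : IsCurveWithGenera C X a γ) {t : Fin n → (P ⟶ X)} (hP : IsPowerOfCurve C t)
    {Γ : Finset (Wreath r n)} (hΓ : IsWreathSubgroup Γ) {b : C.A (P.prod Y)}
    (hY : IsDominatedBy C a t Γ b) (h : NoFormsAbove γ Γ 0) (α : C.A Y) (hα : C.Deg Y.dim α)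
    (hdeg : HasDegree C α 0) : α = 0 :=
  main_zero hX hP hΓ hY h α hα hdeg

end Pool.Agent.H802GB.Old.PowersOfCurves
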